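import Mathlib

namespace Pool.Agent.Results.MP_743c94_lc.Full

open Encodable Denumerable
open Nat.Partrec (Code)

/-! ### Cantor space, computable maps, problems, Weihrauch reducibility -/

/-- The initial segment of length `k` of the sequence `p`. -/
def pre (p : ℕ → Bool) (k : ℕ) : List Bool := (List.range k).map p

/-- The word function `Φ` computes the sequence `q` from the sequence `p`: for every `n`, some
initial segment of `p` makes `Φ` output the bit `q n`, and no initial segment makes it output
another bit. -/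
def Computes (Φ : List Bool → ℕ → Option Bool) (p q : ℕ → Bool) : Prop :=
  ∀ n, (∃ k, Φ (pre p k) n = some (q n)) ∧ ∀ k b, Φ (pre p k) n = some b → b = q n

/-- A partially defined map `F` of Cantor space to itself is computable: one computable word
function computes `F p` from `p` for every `p` in the domain of `F`. -/
def ComputableMap (F : (ℕ → Bool) →. (ℕ → Bool)) : Prop :=
  ∃ Φ : List Bool → ℕ → Option Bool, Computable₂ Φ ∧ ∀ p q, q ∈ F p → Computes Φ p q

/-- A problem: a multivalued function on Cantor space, with its domain. -/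
structure Problem where
  /-- the instances -/
  dom : Set (ℕ → Bool)
  /-- the solutions of an instance -/
  sol : (ℕ → Bool) → Set (ℕ → Bool)

/-- `G` is a realizer of the problem `g`: it is defined on every instance of `g`, and its value
there is a solution. -/
def IsRealizer (G : (ℕ → Bool) →. (ℕ → Bool)) (g : Problem) : Prop :=
  ∀ p ∈ g.dom, ∃ q ∈ G p, q ∈ g.sol p

/-- The pairing of sequences. -/
def join (p q : ℕ → Bool) (n : ℕ) : Bool := if n % 2 = 0 then p (n / 2) else q (n / 2)

/-- The first component of a pair of sequences. -/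
def left (r : ℕ → Bool) (n : ℕ) : Bool := r (2 * n)

/-- The second component of a pair of sequences. -/
def right (r : ℕ → Bool) (n : ℕ) : Bool := r (2 * n + 1)

/-- Weihrauch reducibility. -/
def WeihrauchReducible (f g : Problem) : Prop :=
  ∃ H K : (ℕ → Bool) →. (ℕ → Bool), ComputableMap H ∧ ComputableMap K ∧
    ∀ G : (ℕ → Bool) →. (ℕ → Bool), IsRealizer G g →
      IsRealizer (fun p => (K p).bind fun x => (G x).bind fun y => H (join p y)) f

/-- The product of two problems. -/
def prod (f g : Problem) : Problem where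
  dom := {r | left r ∈ f.dom ∧ right r ∈ g.dom}
  sol := fun r => {s | left s ∈ f.sol (left r) ∧ right s ∈ g.sol (right r)}

/-- The problem `NON`: a solution of `p` is a sequence that is not Turing reducible to `p`. -/
def NON : Problem where
  dom := Set.univ
  sol := fun p => {q | ¬ TuringReducible (fun n => Part.some (q n).toNat)
    (fun n => Part.some (p n).toNat)}

/-- The problem `LLPO`; the answer `i` is given as the constant sequence with value `i`. -/
def LLPO : Problem where
  dom := {p | ∀ m n, p m = true → p n = true → m = n}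
  sol := fun p => {q | ∃ i : Bool, q = (fun _ => i) ∧ ∀ n, p (2 * n + i.toNat) = false}

/-- Ramsey's theorem for pairs and two colours. The colour of the pair `x < y` is
`c (Nat.pair x y)`, and a solution is the characteristic function of an infinite set on whose
two-element subsets the colouring is constant. -/
def RT22 : Problem where
  dom := Set.univ
  sol := fun c => {h | {n | h n = true}.Infinite ∧
    ∃ a : Bool, ∀ x y, x < y → h x = true → h y = true → c (Nat.pair x y) = a}

/-! ### Basic facts -/

@[simp] lemma pre_length (p : ℕ → Bool) (k : ℕ) : (pre p k).length = k := by simp [pre]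

lemma pre_getElem? (p : ℕ → Bool) {k i : ℕ} (h : i < k) : (pre p k)[i]? = some (p i) := by
  simp [pre, h]

lemma pre_getElem?_some {p : ℕ → Bool} {k i : ℕ} {b : Bool} (h : (pre p k)[i]? = some b) :
    b = p i := by
  by_cases hi : i < k
  · rw [pre_getElem? p hi] at h; exact (Option.some.inj h).symm
  · rw [List.getElem?_eq_none (by simpa using hi)] at h; exact absurd h (by simp)

lemma pre_getD (p : ℕ → Bool) {k i : ℕ} (h : i < k) : (pre p k).getD i false = p i := by
  rw [List.getD_eq_getElem?_getD, pre_getElem? p h]; rfl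

lemma pre_take (p : ℕ → Bool) {m n : ℕ} (h : m ≤ n) : (pre p n).take m = pre p m := by
  unfold pre
  rw [← List.map_take, List.take_range, min_eq_left h]

@[simp] lemma left_join (p q : ℕ → Bool) : left (join p q) = p := by
  funext n; simp [left, join]

@[simp] lemma right_join (p q : ℕ → Bool) : right (join p q) = q := by
  funext n
  have h1 : (2 * n + 1) % 2 = 1 := by omega
  have h2 : (2 * n + 1) / 2 = n := by omega
  simp [right, join, h1, h2]

/-! ### The use principle for Turing reducibility -/

/-- A word function approximating a function recursive in the sequence `g`. -/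
def Approx (g : ℕ → Bool) (f : ℕ → Part ℕ) (Φ : List Bool → ℕ → Option ℕ) : Prop :=
  (∀ k k' n y, k ≤ k' → Φ (pre g k) n = some y → Φ (pre g k') n = some y) ∧
    ∀ n y, y ∈ f n ↔ ∃ k, Φ (pre g k) n = some y

lemma approx_const {g : ℕ → Bool} {f : ℕ → ℕ} (hf : Primrec f) :
    ∃ Φ, Primrec₂ Φ ∧ Approx g (fun n => Part.some (f n)) Φ := by
  refine ⟨fun _ n => some (f n), Primrec.option_some.comp (hf.comp Primrec.snd), ?_, ?_⟩
  · intro k k' n y _ h; exact h
  · intro n y
    rw [Part.mem_some_iff]
    constructor
    · rintro rfl; exact ⟨0, rfl⟩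
    · rintro ⟨_, h⟩; exact (Option.some.inj h).symm

lemma approx_pair {g : ℕ → Bool} {f h : ℕ → Part ℕ} {Φ Ψ : List Bool → ℕ → Option ℕ}
    (hΦ : Primrec₂ Φ) (hΨ : Primrec₂ Ψ) (h1 : Approx g f Φ) (h2 : Approx g h Ψ) :
    ∃ Θ, Primrec₂ Θ ∧ Approx g (fun n => (Nat.pair <$> f n <*> h n)) Θ := by
  refine ⟨fun σ n => (Φ σ n).bind fun a => (Ψ σ n).map fun b => Nat.pair a b, ?_, ?_, ?_⟩
  · refine Primrec.option_bind hΦ ?_
    refine Primrec.option_map (hΨ.comp (Primrec.fst.comp Primrec.fst)
      (Primrec.snd.comp Primrec.fst)) ?_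
    exact Primrec₂.natPair.comp (Primrec.snd.comp Primrec.fst) Primrec.snd
  · intro k k' n y hk hy
    simp only [Option.bind_eq_some_iff, Option.map_eq_some_iff] at hy ⊢
    obtain ⟨a, ha, b, hb, rfl⟩ := hy
    exact ⟨a, h1.1 _ _ _ _ hk ha, b, h2.1 _ _ _ _ hk hb, rfl⟩
  · intro n y
    have : y ∈ (Nat.pair <$> f n <*> h n) ↔ ∃ a ∈ f n, ∃ b ∈ h n, Nat.pair a b = y := by
      simp only [Seq.seq, Part.map_eq_map, Part.mem_bind_iff, Part.mem_map_iff]
      constructor
      · rintro ⟨_, ⟨a, ha, rfl⟩, b, hb, rfl⟩
        exact ⟨a, ha, b, hb, rfl⟩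
      · rintro ⟨a, ha, b, hb, rfl⟩
        exact ⟨_, ⟨a, ha, rfl⟩, b, hb, rfl⟩
    rw [this]
    simp only [Option.bind_eq_some_iff, Option.map_eq_some_iff]
    constructor
    · rintro ⟨a, ha, b, hb, rfl⟩
      obtain ⟨k1, hk1⟩ := (h1.2 _ _).1 ha
      obtain ⟨k2, hk2⟩ := (h2.2 _ _).1 hb
      exact ⟨max k1 k2, a, h1.1 _ _ _ _ (le_max_left _ _) hk1, b,
        h2.1 _ _ _ _ (le_max_right _ _) hk2, rfl⟩
    · rintro ⟨k, a, ha, b, hb, rfl⟩
      exact ⟨a, (h1.2 _ _).2 ⟨k, ha⟩, b, (h2.2 _ _).2 ⟨k, hb⟩, rfl⟩

lemma approx_comp {g : ℕ → Bool} {f h : ℕ → Part ℕ} {Φ Ψ : List Bool → ℕ → Option ℕ}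
    (hΦ : Primrec₂ Φ) (hΨ : Primrec₂ Ψ) (h1 : Approx g f Φ) (h2 : Approx g h Ψ) :
    ∃ Θ, Primrec₂ Θ ∧ Approx g (fun n => h n >>= f) Θ := by
  refine ⟨fun σ n => (Ψ σ n).bind fun a => Φ σ a, ?_, ?_, ?_⟩
  · exact Primrec.option_bind hΨ (hΦ.comp (Primrec.fst.comp Primrec.fst) Primrec.snd)
  · intro k k' n y hk hy
    simp only [Option.bind_eq_some_iff] at hy ⊢
    obtain ⟨a, ha, hb⟩ := hy
    exact ⟨a, h2.1 _ _ _ _ hk ha, h1.1 _ _ _ _ hk hb⟩
  · intro n y
    change y ∈ (h n).bind f ↔ _
    rw [Part.mem_bind_iff]
    simp only [Option.bind_eq_some_iff]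
    constructor
    · rintro ⟨a, ha, hb⟩
      obtain ⟨k1, hk1⟩ := (h2.2 _ _).1 ha
      obtain ⟨k2, hk2⟩ := (h1.2 _ _).1 hb
      exact ⟨max k1 k2, a, h2.1 _ _ _ _ (le_max_left _ _) hk1,
        h1.1 _ _ _ _ (le_max_right _ _) hk2⟩
    · rintro ⟨k, a, ha, hb⟩
      exact ⟨a, (h2.2 _ _).2 ⟨k, ha⟩, (h1.2 _ _).2 ⟨k, hb⟩⟩

/-- The approximation to a primitive recursion. -/
def recWord (Φ Ψ : List Bool → ℕ → Option ℕ) (σ : List Bool) (a n : ℕ) : Option ℕ :=
  Nat.rec (motive := fun _ => Option ℕ) (Φ σ a)
    (fun y IH => IH.bind fun i => Ψ σ (Nat.pair a (Nat.pair y i))) n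

lemma approx_prec {g : ℕ → Bool} {f h : ℕ → Part ℕ} {Φ Ψ : List Bool → ℕ → Option ℕ}
    (hΦ : Primrec₂ Φ) (hΨ : Primrec₂ Ψ) (h1 : Approx g f Φ) (h2 : Approx g h Ψ) :
    ∃ Θ, Primrec₂ Θ ∧ Approx g (fun p =>
        let (a, n) := Nat.unpair p
        n.rec (f a) fun y IH => do
          let i ← IH
          h (Nat.pair a (Nat.pair y i))) Θ := by
  refine ⟨fun σ p => recWord Φ Ψ σ p.unpair.1 p.unpair.2, ?_, ?_, ?_⟩
  · have hr : Primrec₂ (fun (q : List Bool × ℕ) (n : ℕ) =>
        Nat.rec (motive := fun _ => Option ℕ) (Φ q.1 q.2)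
          (fun y IH => IH.bind fun i => Ψ q.1 (Nat.pair q.2 (Nat.pair y i))) n) := by
      refine Primrec.nat_rec (f := fun q : List Bool × ℕ => Φ q.1 q.2)
        (g := fun (q : List Bool × ℕ) (r : ℕ × Option ℕ) =>
          r.2.bind fun i => Ψ q.1 (Nat.pair q.2 (Nat.pair r.1 i))) hΦ ?_
      refine Primrec.option_bind (Primrec.snd.comp Primrec.snd) ?_
      refine hΨ.comp (Primrec.fst.comp (Primrec.fst.comp Primrec.fst)) ?_
      refine Primrec₂.natPair.comp (Primrec.snd.comp (Primrec.fst.comp Primrec.fst)) ?_
      exact Primrec₂.natPair.comp (Primrec.fst.comp (Primrec.snd.comp Primrec.fst)) Primrec.snd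
    have hu : Primrec (fun q : List Bool × ℕ => q.2.unpair) := Primrec.unpair.comp Primrec.snd
    exact hr.comp (Primrec.fst.pair (Primrec.fst.comp hu)) (Primrec.snd.comp hu)
  · intro k k' p y hk
    change recWord Φ Ψ (pre g k) p.unpair.1 p.unpair.2 = some y →
      recWord Φ Ψ (pre g k') p.unpair.1 p.unpair.2 = some y
    generalize p.unpair.1 = a
    generalize p.unpair.2 = n
    induction n generalizing y with
    | zero => exact h1.1 _ _ _ _ hk
    | succ n ih =>
      intro hy
      simp only [recWord, Option.bind_eq_some_iff] at hy ⊢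
      obtain ⟨i, hi, hy⟩ := hy
      exact ⟨i, ih i hi, h2.1 _ _ _ _ hk hy⟩
  · intro p y
    have key : ∀ (a n y : ℕ), y ∈ (Nat.rec (motive := fun _ => Part ℕ) (f a)
        (fun y IH => IH.bind fun i => h (Nat.pair a (Nat.pair y i))) n : Part ℕ) ↔
        ∃ k, recWord Φ Ψ (pre g k) a n = some y := by
      intro a n
      induction n with
      | zero => intro y; exact h1.2 a y
      | succ n ih =>
        intro y
        simp only [recWord, Part.mem_bind_iff, Option.bind_eq_some_iff]
        constructor
        · rintro ⟨i, hi, hy⟩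
          obtain ⟨k1, hk1⟩ := (ih i).1 hi
          obtain ⟨k2, hk2⟩ := (h2.2 _ _).1 hy
          refine ⟨max k1 k2, i, ?_, h2.1 _ _ _ _ (le_max_right _ _) hk2⟩
          have hmono : ∀ (m i : ℕ), recWord Φ Ψ (pre g k1) a m = some i →
              recWord Φ Ψ (pre g (max k1 k2)) a m = some i := by
            intro m
            induction m with
            | zero => intro i; exact h1.1 _ _ _ _ (le_max_left _ _)
            | succ m ihm =>
              intro i hi
              simp only [recWord, Option.bind_eq_some_iff] at hi ⊢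
              obtain ⟨j, hj, hi⟩ := hi
              exact ⟨j, ihm j hj, h2.1 _ _ _ _ (le_max_left _ _) hi⟩
          exact hmono n i hk1
        · rintro ⟨k, i, hi, hy⟩
          exact ⟨i, (ih i).2 ⟨k, hi⟩, (h2.2 _ _).2 ⟨k, hy⟩⟩
    exact key p.unpair.1 p.unpair.2 y

/-- The approximation to an unbounded search. -/
def findWord (Φ : List Bool → ℕ → Option ℕ) (σ : List Bool) (a : ℕ) : Option ℕ :=
  let n := (List.range σ.length).findIdx (fun n => decide ((Φ σ (Nat.pair a n)).getD 0 = 0))
  bif decide (Φ σ (Nat.pair a n) = some 0) then some n else none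

lemma findWord_iff {Φ : List Bool → ℕ → Option ℕ} {σ : List Bool} {a y : ℕ} :
    findWord Φ σ a = some y ↔ y ≤ σ.length ∧ Φ σ (Nat.pair a y) = some 0 ∧
      ∀ m < y, ∃ v, Φ σ (Nat.pair a m) = some (v + 1) := by
  set P : ℕ → Bool := fun n => decide ((Φ σ (Nat.pair a n)).getD 0 = 0) with hP
  have hPf : ∀ m, P m = false ↔ ∃ v, Φ σ (Nat.pair a m) = some (v + 1) := by
    intro m
    simp only [hP, decide_eq_false_iff_not]
    rcases h : Φ σ (Nat.pair a m) with _ | v
    · simp
    · simp only [Option.getD_some, Option.some.injEq]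
      constructor
      · intro hv; exact ⟨v - 1, by omega⟩
      · rintro ⟨w, hw⟩; omega
  have hfw : findWord Φ σ a = bif decide (Φ σ (Nat.pair a ((List.range σ.length).findIdx P)) =
      some 0) then some ((List.range σ.length).findIdx P) else none := rfl
  rw [hfw]
  constructor
  · intro h
    by_cases hz : Φ σ (Nat.pair a ((List.range σ.length).findIdx P)) = some 0
    · simp only [hz, decide_true, cond_true, Option.some.injEq] at h
      rw [h] at hz
      have hle : y ≤ σ.length := by
        rw [← h]
        refine (List.findIdx_le_length).trans ?_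
        simp
      refine ⟨hle, hz, fun m hm => ?_⟩
      rw [← hPf]
      rw [← h] at hm
      have := List.not_of_lt_findIdx hm
      simpa using this
    · simp [hz] at h
  · rintro ⟨hle, hz, hall⟩
    have : (List.range σ.length).findIdx P = y := by
      rcases lt_trichotomy ((List.range σ.length).findIdx P) y with hlt | heq | hgt
      · exfalso
        have hlen : (List.range σ.length).findIdx P < (List.range σ.length).length := by
          rw [List.length_range]; omega
        have h1 := List.findIdx_getElem (p := P) (w := hlen)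
        rw [List.getElem_range] at h1
        rw [(hPf _).2 (hall _ hlt)] at h1
        exact Bool.false_ne_true h1
      · exact heq
      · exfalso
        have h1 := List.not_of_lt_findIdx hgt
        have h2 : P y = true := by simp [hP, hz]
        simp [h2] at h1
    rw [this]
    simp [hz]

lemma approx_rfind {g : ℕ → Bool} {f : ℕ → Part ℕ} {Φ : List Bool → ℕ → Option ℕ}
    (hΦ : Primrec₂ Φ) (h1 : Approx g f Φ) :
    ∃ Θ, Primrec₂ Θ ∧ Approx g (fun a =>
        Nat.rfind fun n => (fun m => m = 0) <$> f (Nat.pair a n)) Θ := by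
  refine ⟨findWord Φ, ?_, ?_, ?_⟩
  · have hp : Primrec₂ (fun (q : List Bool × ℕ) (n : ℕ) =>
        decide ((Φ q.1 (Nat.pair q.2 n)).getD 0 = 0)) := by
      refine (PrimrecRel.comp (f := fun r : (List Bool × ℕ) × ℕ =>
        (Φ r.1.1 (Nat.pair r.1.2 r.2)).getD 0) Primrec.eq ?_ (Primrec.const 0)).decide
      refine Primrec.option_getD.comp ?_ (Primrec.const 0)
      exact hΦ.comp (Primrec.fst.comp Primrec.fst) (Primrec₂.natPair.comp
        (Primrec.snd.comp Primrec.fst) Primrec.snd)
    have hn : Primrec (fun q : List Bool × ℕ => (List.range q.1.length).findIdx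
        (fun n => decide ((Φ q.1 (Nat.pair q.2 n)).getD 0 = 0))) :=
      Primrec.list_findIdx (Primrec.list_range.comp (Primrec.list_length.comp Primrec.fst)) hp
    have hc : Primrec (fun q : List Bool × ℕ => decide (Φ q.1 (Nat.pair q.2
        ((List.range q.1.length).findIdx
          (fun n => decide ((Φ q.1 (Nat.pair q.2 n)).getD 0 = 0)))) = some 0)) :=
      (PrimrecRel.comp Primrec.eq (hΦ.comp Primrec.fst (Primrec₂.natPair.comp Primrec.snd hn))
        (Primrec.const (some 0))).decide
    exact Primrec.cond hc (Primrec.option_some.comp hn) (Primrec.const none)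
  · intro k k' n y hk hy
    rw [findWord_iff] at hy ⊢
    rw [pre_length] at hy ⊢
    refine ⟨hy.1.trans hk, h1.1 _ _ _ _ hk hy.2.1, fun m hm => ?_⟩
    obtain ⟨v, hv⟩ := hy.2.2 m hm
    exact ⟨v, h1.1 _ _ _ _ hk hv⟩
  · intro a y
    have hmr : ∀ (P : ℕ →. Bool) (z : ℕ), z ∈ Nat.rfind P ↔
        true ∈ P z ∧ ∀ {m : ℕ}, m < z → false ∈ P m := fun P z => Nat.mem_rfind
    refine (hmr _ y).trans ?_
    change (true ∈ (f (Nat.pair a y)).map (fun m => decide (m = 0)) ∧
      ∀ {m : ℕ}, m < y → false ∈ (f (Nat.pair a m)).map (fun m => decide (m = 0))) ↔ _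
    simp only [Part.mem_map_iff, decide_eq_true_eq, decide_eq_false_iff_not]
    constructor
    · rintro ⟨⟨z, hz, rfl⟩, hall⟩
      obtain ⟨k0, hk0⟩ := (h1.2 _ _).1 hz
      have hev : ∀ m < y, ∃ k v, Φ (pre g k) (Nat.pair a m) = some (v + 1) := by
        intro m hm
        obtain ⟨v, hv, hv0⟩ := hall hm
        obtain ⟨k, hk⟩ := (h1.2 _ _).1 hv
        exact ⟨k, v - 1, by rw [hk]; congr 1; omega⟩
      choose! kk hkk using hev
      refine ⟨max (max y k0) ((Finset.range y).sup kk), ?_⟩
      rw [findWord_iff, pre_length]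
      refine ⟨(le_max_left _ _).trans (le_max_left _ _),
        h1.1 _ _ _ _ ((le_max_right _ _).trans (le_max_left _ _)) hk0, fun m hm => ?_⟩
      obtain ⟨v, hv⟩ := hkk m hm
      exact ⟨v, h1.1 _ _ _ _ (le_trans (Finset.le_sup (f := kk) (Finset.mem_range.2 hm))
        (le_max_right _ _)) hv⟩
    · rintro ⟨k, hk⟩
      rw [findWord_iff] at hk
      refine ⟨⟨0, (h1.2 _ _).2 ⟨k, hk.2.1⟩, rfl⟩, fun {m} hm => ?_⟩
      obtain ⟨v, hv⟩ := hk.2.2 m hm
      exact ⟨v + 1, (h1.2 _ _).2 ⟨k, hv⟩, by omega⟩

/-- The use principle: every function recursive in a sequence is computed by a word function. -/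
lemma use_principle {g : ℕ → Bool} {f : ℕ →. ℕ}
    (hf : Nat.RecursiveIn {fun n => Part.some (g n).toNat} f) :
    ∃ Φ, Primrec₂ Φ ∧ Approx g f Φ := by
  induction hf with
  | zero => exact approx_const (Primrec.const 0)
  | succ => exact approx_const Primrec.succ
  | left => exact approx_const (Primrec.fst.comp Primrec.unpair)
  | right => exact approx_const (Primrec.snd.comp Primrec.unpair)
  | oracle o ho =>
    have ho' : o = fun n => Part.some (g n).toNat := ho
    subst ho'
    refine ⟨fun σ n => (σ[n]?).map Bool.toNat, ?_, ?_, ?_⟩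
    · refine Primrec.option_map Primrec.list_getElem? ?_
      exact (Primrec.dom_finite Bool.toNat).comp Primrec.snd
    · intro k k' n y hk hy
      rw [Option.map_eq_some_iff] at hy ⊢
      obtain ⟨b, hb, rfl⟩ := hy
      obtain rfl := pre_getElem?_some hb
      have hn : n < k := by
        by_contra hcon
        rw [List.getElem?_eq_none (by simpa using hcon)] at hb
        exact absurd hb (by simp)
      exact ⟨g n, pre_getElem? g (by omega), rfl⟩
    · intro n y
      rw [Part.mem_some_iff]
      constructor
      · rintro rfl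
        refine ⟨n + 1, ?_⟩
        change ((pre g (n + 1))[n]?).map Bool.toNat = _
        rw [pre_getElem? g (Nat.lt_succ_self n)]; rfl
      · rintro ⟨k, hk⟩
        rw [Option.map_eq_some_iff] at hk
        obtain ⟨b, hb, rfl⟩ := hk
        rw [pre_getElem?_some hb]
  | pair _ _ ih1 ih2 =>
    obtain ⟨Φ, hΦ, h1⟩ := ih1
    obtain ⟨Ψ, hΨ, h2⟩ := ih2
    exact approx_pair hΦ hΨ h1 h2
  | comp _ _ ih1 ih2 =>
    obtain ⟨Φ, hΦ, h1⟩ := ih1
    obtain ⟨Ψ, hΨ, h2⟩ := ih2
    exact approx_comp hΦ hΨ h1 h2
  | prec _ _ ih1 ih2 =>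
    obtain ⟨Φ, hΦ, h1⟩ := ih1
    obtain ⟨Ψ, hΨ, h2⟩ := ih2
    exact approx_prec hΦ hΨ h1 h2
  | rfind _ ih =>
    obtain ⟨Φ, hΦ, h1⟩ := ih
    exact approx_rfind hΦ h1

/-- Some computable word function computes `q` from `p`. -/
def ComputableFrom (p q : ℕ → Bool) : Prop :=
  ∃ Φ : List Bool → ℕ → Option Bool, Computable₂ Φ ∧ Computes Φ p q

lemma computableFrom_of_turing {p q : ℕ → Bool}
    (h : TuringReducible (fun n => Part.some (q n).toNat) (fun n => Part.some (p n).toNat)) :
    ComputableFrom p q := by
  obtain ⟨Φ, hΦ, -, hval⟩ := use_principle (RecursiveIn.iff_nat.1 h)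
  refine ⟨fun σ n => (Φ σ n).map fun y => decide (y = 1), ?_, fun n => ⟨?_, ?_⟩⟩
  · refine Primrec.to_comp (Primrec.option_map hΦ ?_)
    exact (PrimrecRel.comp Primrec.eq Primrec.snd (Primrec.const 1)).decide
  · obtain ⟨k, hk⟩ := (hval n (q n).toNat).1 (Part.mem_some _)
    refine ⟨k, ?_⟩
    change (Φ (pre p k) n).map (fun y => decide (y = 1)) = some (q n)
    rw [hk]
    cases q n <;> rfl
  · intro k b hb
    rw [Option.map_eq_some_iff] at hb
    obtain ⟨y, hy, rfl⟩ := hb
    have h1 := (hval n y).2 ⟨k, hy⟩
    rw [Part.mem_some_iff] at h1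
    rw [h1]
    cases q n <;> rfl

/-! ### A colouring without computable homogeneous sets -/

/-- Within `|σ|` steps, the `e`-th word function is seen to say that `n` belongs to the `e`-th
set, on some initial segment of `σ`. -/
def Pos (e : ℕ) (σ : List Bool) (n : ℕ) : Prop :=
  ∃ k ∈ List.range (σ.length + 1),
    Code.evaln σ.length (ofNat Code e) (encode (σ.take k, n)) = some (encode (some true))

lemma primrec_pos : PrimrecRel (fun (n : ℕ) (q : List Bool × ℕ) => Pos q.2 q.1 n) := by
  have h1 : PrimrecRel (fun (k : ℕ) (r : ℕ × List Bool × ℕ) =>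
      Code.evaln r.2.1.length (ofNat Code r.2.2) (encode (r.2.1.take k, r.1)) =
        some (encode (some true))) := by
    have ha : Primrec (fun x : ℕ × ℕ × List Bool × ℕ => x.2.2.1) :=
      Primrec.fst.comp (Primrec.snd.comp Primrec.snd)
    have hb : Primrec (fun x : ℕ × ℕ × List Bool × ℕ => ofNat Code x.2.2.2) :=
      (Primrec.ofNat Code).comp (Primrec.snd.comp (Primrec.snd.comp Primrec.snd))
    have hc : Primrec (fun x : ℕ × ℕ × List Bool × ℕ => encode (x.2.2.1.take x.1, x.2.1)) :=
      Primrec.encode.comp ((Primrec.list_take.comp Primrec.fst ha).pair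
        (Primrec.fst.comp Primrec.snd))
    have hd : Primrec (fun x : ℕ × ℕ × List Bool × ℕ =>
        Code.evaln x.2.2.1.length (ofNat Code x.2.2.2) (encode (x.2.2.1.take x.1, x.2.1))) :=
      Code.primrec_evaln.comp (((Primrec.list_length.comp ha).pair hb).pair hc)
    exact PrimrecRel.comp Primrec.eq hd (Primrec.const _)
  have h2 := PrimrecRel.exists_mem_list h1
  have h3 : PrimrecPred (fun r : ℕ × List Bool × ℕ => ∃ k ∈ List.range (r.2.1.length + 1),
      Code.evaln r.2.1.length (ofNat Code r.2.2) (encode (r.2.1.take k, r.1)) =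
        some (encode (some true))) :=
    h2.comp (Primrec.list_range.comp (Primrec.succ.comp (Primrec.list_length.comp
      (Primrec.fst.comp Primrec.snd)))) Primrec.id
  exact h3

open Classical in
/-- The elements below `|σ|` seen to belong to the `e`-th set. -/
noncomputable def elems (σ : List Bool) (e : ℕ) : List ℕ :=
  (List.range σ.length).filter (fun n => Pos e σ n)

/-- The elements of `L` not in `U`. -/
def fresh (L U : List ℕ) : List ℕ := L.filter (fun n => n ∉ U)

/-- The elements used by the first `e` requirements, two for each. -/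
noncomputable def used (σ : List Bool) (e : ℕ) : List ℕ :=
  Nat.rec (motive := fun _ => List ℕ) [] (fun e U => U ++ [(fresh (elems σ e) U).getD 0 0,
    (fresh (elems σ e) U).getD 1 0]) e

/-- The colour of `x < |σ|` at stage `|σ|`. -/
noncomputable def base (σ : List Bool) (x : ℕ) : Bool :=
  decide ((used σ σ.length).idxOf x % 2 = 1)

lemma primrec_elems : Primrec₂ elems := by
  classical
  have h := PrimrecRel.listFilter primrec_pos
  have h2 : Primrec (fun q : List Bool × ℕ => (List.range q.1.length).filter
      (fun n => Pos q.2 q.1 n)) :=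
    h.comp (Primrec.list_range.comp (Primrec.list_length.comp Primrec.fst)) Primrec.id
  refine h2.of_eq fun q => ?_
  unfold elems
  congr

lemma primrec_fresh : Primrec₂ fresh := by
  have h1 : PrimrecRel (fun (a n : ℕ) => a = n) := Primrec.eq
  have h2 : PrimrecRel (fun (n : ℕ) (U : List ℕ) => n ∈ U) := by
    have h3 : PrimrecPred (fun q : ℕ × List ℕ => ∃ a ∈ q.2, a = q.1) :=
      (PrimrecRel.exists_mem_list h1).comp Primrec.snd Primrec.fst
    exact h3.of_eq fun q => by simp
  have h4 : PrimrecRel (fun (n : ℕ) (U : List ℕ) => n ∉ U) := PrimrecPred.not h2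
  exact PrimrecRel.listFilter h4

lemma primrec_used : Primrec₂ used := by
  unfold used
  refine Primrec.nat_rec (f := fun _ : List Bool => ([] : List ℕ))
    (g := fun (σ : List Bool) (q : ℕ × List ℕ) => q.2 ++ [(fresh (elems σ q.1) q.2).getD 0 0,
      (fresh (elems σ q.1) q.2).getD 1 0]) (Primrec.const _) ?_
  have hf : Primrec (fun x : List Bool × ℕ × List ℕ => fresh (elems x.1 x.2.1) x.2.2) :=
    primrec_fresh.comp (primrec_elems.comp Primrec.fst (Primrec.fst.comp Primrec.snd))
      (Primrec.snd.comp Primrec.snd)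
  have hg : ∀ i : ℕ, Primrec (fun x : List Bool × ℕ × List ℕ =>
      (fresh (elems x.1 x.2.1) x.2.2).getD i 0) := fun i =>
    (Primrec.list_getD 0).comp hf (Primrec.const i)
  exact Primrec.list_append.comp (Primrec.snd.comp Primrec.snd)
    (Primrec.list_cons.comp (hg 0) (Primrec.list_cons.comp (hg 1) (Primrec.const [])))

lemma primrec_base : Primrec₂ base := by
  have h1 : Primrec (fun q : List Bool × ℕ => (used q.1 q.1.length).idxOf q.2) :=
    Primrec.list_idxOf.comp Primrec.snd
      (primrec_used.comp Primrec.fst (Primrec.list_length.comp Primrec.fst))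
  have h2 : PrimrecPred (fun q : List Bool × ℕ => (used q.1 q.1.length).idxOf q.2 % 2 = 1) :=
    PrimrecRel.comp Primrec.eq (Primrec.nat_mod.comp h1 (Primrec.const 2)) (Primrec.const 1)
  exact h2.decide


lemma used_succ (σ : List Bool) (e : ℕ) : used σ (e + 1) = used σ e ++
    [(fresh (elems σ e) (used σ e)).getD 0 0, (fresh (elems σ e) (used σ e)).getD 1 0] := rfl

lemma used_length (σ : List Bool) (e : ℕ) : (used σ e).length = 2 * e := by
  induction e with
  | zero => rfl
  | succ e ih => rw [used_succ]; simp [ih]; ring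

lemma used_mono (σ : List Bool) {e m : ℕ} (h : e ≤ m) : ∃ t, used σ m = used σ e ++ t := by
  induction m, h using Nat.le_induction with
  | base => exact ⟨[], by simp⟩
  | succ m _ ih =>
    obtain ⟨t, ht⟩ := ih
    exact ⟨t ++ _, by rw [used_succ, ht, List.append_assoc]⟩

lemma elems_nodup (σ : List Bool) (e : ℕ) : (elems σ e).Nodup :=
  List.Nodup.filter _ List.nodup_range

lemma fresh_length {L U : List ℕ} (hL : L.Nodup) : L.length ≤ (fresh L U).length + U.length := by
  classical
  have h1 : L.length = (L.filter (fun n => n ∉ U)).length + (L.filter (fun n => n ∈ U)).length := by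
    have h5 := List.length_eq_length_filter_add (l := L) (fun n => decide (n ∈ U))
    have h6 : (L.filter (fun n => n ∉ U)) = L.filter (fun x => !decide (x ∈ U)) := by
      refine List.filter_congr fun a _ => ?_
      simp
    rw [h6]; omega
  have h2 : (L.filter (fun n => n ∈ U)).length ≤ U.length := by
    have h3 : (L.filter (fun n => n ∈ U)).Nodup := List.Nodup.filter _ hL
    have h4 : (L.filter (fun n => n ∈ U)) ⊆ U := by
      intro a ha
      simpa using (List.mem_filter.1 ha).2
    exact (h3.subperm h4).length_le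
  unfold fresh
  omega

/-- If enough elements are available for requirement `e`, then two of them get different
colours. -/
lemma base_split {σ : List Bool} {e : ℕ} (he : e < σ.length)
    (hL : 2 * e + 2 ≤ (elems σ e).length) :
    ∃ x ∈ elems σ e, ∃ y ∈ elems σ e, base σ x = false ∧ base σ y = true := by
  set U := used σ e with hU
  set R := fresh (elems σ e) U with hR
  have hlen : 2 ≤ R.length := by
    have := fresh_length (U := U) (elems_nodup σ e)
    rw [hU, used_length, ← hU, ← hR] at this
    omega
  have hRn : R.Nodup := List.Nodup.filter _ (elems_nodup σ e)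
  have h0 : R.getD 0 0 = R[0]'(by omega) := by
    rw [List.getD_eq_getElem _ _ (by omega)]
  have h1 : R.getD 1 0 = R[1]'(by omega) := by
    rw [List.getD_eq_getElem _ _ (by omega)]
  set x := R[0]'(by omega) with hx
  set y := R[1]'(by omega) with hy
  have hxy : x ≠ y := by
    intro h
    have := (List.Nodup.getElem_inj_iff hRn).1 h
    omega
  have hxR : x ∈ R := List.getElem_mem _
  have hyR : y ∈ R := List.getElem_mem _
  have hxm := List.mem_filter.1 hxR
  have hym := List.mem_filter.1 hyR
  have hxU : x ∉ U := by simpa using hxm.2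
  have hyU : y ∉ U := by simpa using hym.2
  obtain ⟨t, ht⟩ := used_mono σ (Nat.succ_le_of_lt he)
  have hall : used σ σ.length = U ++ (x :: y :: t) := by
    rw [ht, Nat.succ_eq_add_one, used_succ, ← hU, ← hR, h0, h1]
    simp
  have hUl : U.length = 2 * e := used_length σ e
  refine ⟨x, hxm.1, y, hym.1, ?_, ?_⟩
  · unfold base
    rw [hall, List.idxOf_append_of_notMem hxU, hUl]
    simp
  · unfold base
    rw [hall, List.idxOf_append_of_notMem hyU, hUl, List.idxOf_cons_ne _ hxy]
    simp

lemma exists_code {Φ : List Bool → ℕ → Option Bool} (hΦ : Computable₂ Φ) :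
    ∃ e : ℕ, ∀ (σ : List Bool) (n : ℕ),
      Code.eval (ofNat Code e) (encode (σ, n)) = Part.some (encode (Φ σ n)) := by
  have hpart : Partrec (fun q : List Bool × ℕ => (Part.some (Φ q.1 q.2) : Part (Option Bool))) :=
    hΦ
  obtain ⟨c, hc⟩ := Code.exists_code.1 hpart
  refine ⟨encode c, fun σ n => ?_⟩
  rw [ofNat_encode, hc]
  simp

/-- No infinite homogeneous set of the colouring attached to `p` is computable from `p`. -/
lemma no_homogeneous {p h : ℕ → Bool} {a : Bool} (hcomp : ComputableFrom p h)
    (hinf : {n | h n = true}.Infinite)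
    (hhom : ∀ x y, x < y → h x = true → h y = true → base (pre p y) x = a) : False := by
  obtain ⟨Φ, hΦ, hcs⟩ := hcomp
  obtain ⟨e, he⟩ := exists_code hΦ
  -- elements are sound
  have hsound : ∀ s n, n ∈ elems (pre p s) e → n < s ∧ h n = true := by
    intro s n hn
    unfold elems at hn
    rw [List.mem_filter, List.mem_range] at hn
    obtain ⟨hlt, hpos⟩ := hn
    rw [pre_length] at hlt
    refine ⟨hlt, ?_⟩
    have hpos' : Pos e (pre p s) n := by simpa using hpos
    obtain ⟨k, hk, hev⟩ := hpos'
    rw [List.mem_range, pre_length] at hk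
    rw [pre_take p (by omega)] at hev
    have h1 := Code.evaln_sound (Option.mem_def.2 hev)
    rw [he, Part.mem_some_iff] at h1
    have h2 : Φ (pre p k) n = some true := (encode_injective h1).symm
    exact ((hcs n).2 k true h2).symm
  -- finitely many elements are eventually seen
  have hcomplete : ∀ n, h n = true → ∃ s0, ∀ s, s0 ≤ s → n ∈ elems (pre p s) e := by
    intro n hn
    obtain ⟨k, hk⟩ := (hcs n).1
    have h1 : encode (some true) ∈ Code.eval (ofNat Code e) (encode (pre p k, n)) := by
      rw [he, hk, hn]; exact Part.mem_some _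
    obtain ⟨m, hm⟩ := Code.evaln_complete.1 h1
    refine ⟨max (n + 1) (max k m), fun s hs => ?_⟩
    have hs1 : n + 1 ≤ s := le_trans (le_max_left _ _) hs
    have hs2 : k ≤ s := le_trans (le_trans (le_max_left _ _) (le_max_right _ _)) hs
    have hs3 : m ≤ s := le_trans (le_trans (le_max_right _ _) (le_max_right _ _)) hs
    unfold elems
    rw [List.mem_filter, List.mem_range, pre_length]
    refine ⟨hs1, ?_⟩
    have : Pos e (pre p s) n := by
      refine ⟨k, ?_, ?_⟩
      · rw [List.mem_range, pre_length]; omega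
      · rw [pre_take p hs2, pre_length]
        exact Option.mem_def.1 (Code.evaln_mono hs3 hm)
    simpa using this
  obtain ⟨F, hF, hFc⟩ := hinf.exists_subset_card_eq (2 * e + 2)
  have hev : ∀ᶠ s in Filter.atTop, ∀ n ∈ F, n ∈ elems (pre p s) e := by
    rw [Filter.eventually_all_finset]
    intro n hn
    obtain ⟨s0, hs0⟩ := hcomplete n (hF hn)
    exact Filter.eventually_atTop.2 ⟨s0, hs0⟩
  obtain ⟨s0, hs0⟩ := Filter.eventually_atTop.1 hev
  obtain ⟨s, hs, hslt⟩ := hinf.exists_gt (max s0 e)
  have hs1 : s0 ≤ s := le_trans (le_max_left _ _) hslt.le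
  have hs2 : e < s := lt_of_le_of_lt (le_max_right _ _) hslt
  have hlen : 2 * e + 2 ≤ (elems (pre p s) e).length := by
    rw [← hFc, ← List.toFinset_card_of_nodup (elems_nodup _ _)]
    refine Finset.card_le_card fun n hn => ?_
    rw [List.mem_toFinset]
    exact hs0 s hs1 n hn
  obtain ⟨x, hx, y, hy, hbx, hby⟩ := base_split (by simpa using hs2) hlen
  have hx' := hsound s x hx
  have hy' := hsound s y hy
  have e1 := hhom x s hx'.1 hx'.2 hs
  have e2 := hhom y s hy'.1 hy'.2 hs
  rw [hbx] at e1
  rw [hby, ← e1] at e2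
  exact Bool.false_ne_true e2.symm

/-- Deleting finitely many elements preserves relative computability. -/
lemma computableFrom_tail {p h : ℕ → Bool} (N : ℕ) (hcomp : ComputableFrom p h) :
    ComputableFrom p (fun n => decide (N < n) && h n) := by
  obtain ⟨Φ, hΦ, hcs⟩ := hcomp
  refine ⟨fun σ n => bif decide (N < n) then Φ σ n else some false, ?_, ?_⟩
  · have h1 : Primrec (fun q : List Bool × ℕ => decide (N < q.2)) :=
      (PrimrecRel.comp Primrec.nat_lt (Primrec.const N) Primrec.snd).decide
    exact Computable.cond h1.to_comp hΦ (Computable.const _)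
  · intro n
    by_cases hn : N < n
    · simpa [hn] using hcs n
    · simp [hn]

/-! ### The forward map -/

/-- From an initial segment `τ` of a pair of sequences: the first `y` bits of the first one. -/
def evens (y : ℕ) (τ : List Bool) : List Bool := (List.range y).map (fun i => τ.getD (2 * i) false)

/-- The positions below `y` at which the second sequence has the bit `true`. -/
def flips (y : ℕ) (τ : List Bool) : List ℕ :=
  (List.range y).filter (fun j => τ.getD (2 * j + 1) false = true)

/-- The colour of the pair `x < y`. -/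
noncomputable def col (τ : List Bool) (x y : ℕ) : Bool :=
  (flips y τ)[0]?.elim (base (evens y τ) x)
    (fun j => bif decide (x ≤ j) then decide (j % 2 = 0) else base (evens y τ) x)

/-- The answer read off from the first two elements `a < b` of a homogeneous set. -/
noncomputable def answ (τ : List Bool) (a b : ℕ) : Bool :=
  (flips b τ)[0]?.elim (col τ a b) (fun j => decide (j % 2 = 0))

lemma primrec_evens : Primrec₂ evens := by
  refine Primrec.list_map (Primrec.list_range.comp Primrec.fst) ?_
  exact (Primrec.list_getD false).comp (Primrec.snd.comp Primrec.fst)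
    (Primrec.nat_double.comp Primrec.snd)

lemma primrec_flips : Primrec₂ flips := by
  have h1 : PrimrecRel (fun (j : ℕ) (τ : List Bool) => τ.getD (2 * j + 1) false = true) :=
    PrimrecRel.comp Primrec.eq ((Primrec.list_getD false).comp Primrec.snd
      (Primrec.nat_double_succ.comp Primrec.fst)) (Primrec.const true)
  have h2 := PrimrecRel.listFilter h1
  exact h2.comp (Primrec.list_range.comp Primrec.fst) Primrec.snd

lemma primrec_elim {α β γ : Type} [Primcodable α] [Primcodable β] [Primcodable γ]
    {o : α → Option β} {f : α → γ} {g : α → β → γ} (ho : Primrec o) (hf : Primrec f)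
    (hg : Primrec₂ g) : Primrec (fun a => (o a).elim (f a) (g a)) :=
  (Primrec.option_casesOn ho hf hg).of_eq fun a => by cases o a <;> rfl

lemma primrec_col : Primrec (fun q : List Bool × ℕ × ℕ => col q.1 q.2.1 q.2.2) := by
  have hb : Primrec (fun q : List Bool × ℕ × ℕ => base (evens q.2.2 q.1) q.2.1) :=
    primrec_base.comp (primrec_evens.comp (Primrec.snd.comp Primrec.snd) Primrec.fst)
      (Primrec.fst.comp Primrec.snd)
  have hfl : Primrec (fun q : List Bool × ℕ × ℕ => (flips q.2.2 q.1)[0]?) :=
    Primrec.list_getElem?.comp (primrec_flips.comp (Primrec.snd.comp Primrec.snd) Primrec.fst)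
      (Primrec.const 0)
  refine primrec_elim hfl hb ?_
  have h1 : Primrec (fun r : (List Bool × ℕ × ℕ) × ℕ => decide (r.1.2.1 ≤ r.2)) :=
    (PrimrecRel.comp Primrec.nat_le (Primrec.fst.comp (Primrec.snd.comp Primrec.fst))
      Primrec.snd).decide
  have h2 : Primrec (fun r : (List Bool × ℕ × ℕ) × ℕ => decide (r.2 % 2 = 0)) :=
    (PrimrecRel.comp Primrec.eq (Primrec.nat_mod.comp Primrec.snd (Primrec.const 2))
      (Primrec.const 0)).decide
  exact Primrec.cond h1 h2 (hb.comp Primrec.fst)

lemma primrec_answ : Primrec (fun q : List Bool × ℕ × ℕ => answ q.1 q.2.1 q.2.2) := by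
  have hfl : Primrec (fun q : List Bool × ℕ × ℕ => (flips q.2.2 q.1)[0]?) :=
    Primrec.list_getElem?.comp (primrec_flips.comp (Primrec.snd.comp Primrec.snd) Primrec.fst)
      (Primrec.const 0)
  refine primrec_elim hfl primrec_col ?_
  exact (PrimrecRel.comp Primrec.eq (Primrec.nat_mod.comp Primrec.snd (Primrec.const 2))
      (Primrec.const 0)).decide

lemma evens_pre (r : ℕ → Bool) {y k : ℕ} (h : 2 * y ≤ k + 1) :
    evens y (pre r k) = pre (left r) y := by
  unfold evens
  rw [pre]
  refine List.map_congr_left fun i hi => ?_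
  rw [List.mem_range] at hi
  rw [← pre, pre_getD r (by omega)]; rfl

lemma mem_flips_pre (r : ℕ → Bool) {y k j : ℕ} (h : 2 * y ≤ k) :
    j ∈ flips y (pre r k) ↔ j < y ∧ right r j = true := by
  unfold flips
  rw [List.mem_filter, List.mem_range]
  refine and_congr_right fun hj => ?_
  rw [pre_getD r (by omega)]
  simp [right]

/-- The forward word function. -/
noncomputable def wordK (τ : List Bool) (m : ℕ) : Option Bool :=
  bif decide (τ.length = 2 * m.unpair.2) then some (col τ m.unpair.1 m.unpair.2) else none

lemma primrec_wordK : Primrec₂ wordK := by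
  have hu : Primrec (fun q : List Bool × ℕ => q.2.unpair) := Primrec.unpair.comp Primrec.snd
  have h1 : Primrec (fun q : List Bool × ℕ => decide (q.1.length = 2 * q.2.unpair.2)) :=
    (PrimrecRel.comp Primrec.eq (Primrec.list_length.comp Primrec.fst)
      (Primrec.nat_double.comp (Primrec.snd.comp hu))).decide
  have h2 : Primrec (fun q : List Bool × ℕ => some (col q.1 q.2.unpair.1 q.2.unpair.2)) :=
    Primrec.option_some.comp (primrec_col.comp (Primrec.fst.pair hu))
  exact Primrec.cond h1 h2 (Primrec.const none)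

/-- The colouring attached to an instance. -/
noncomputable def mapK (r : ℕ → Bool) (m : ℕ) : Bool :=
  col (pre r (2 * m.unpair.2)) m.unpair.1 m.unpair.2

lemma computes_mapK (r : ℕ → Bool) : Computes wordK r (mapK r) := by
  intro m
  constructor
  · refine ⟨2 * m.unpair.2, ?_⟩
    simp [wordK, mapK]
  · intro k b hb
    by_cases hk : k = 2 * m.unpair.2
    · subst hk
      simp only [wordK, pre_length, decide_true, cond_true, Option.some.injEq] at hb
      exact hb.symm
    · simp [wordK, hk] at hb

/-! ### The backward map -/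

/-- `a < b` are the first two elements of the set `h`. -/
def FirstTwo (h : ℕ → Bool) (a b : ℕ) : Prop :=
  a < b ∧ h a = true ∧ h b = true ∧ ∀ i < b, h i = true → i = a

lemma FirstTwo.unique {h : ℕ → Bool} {a b a' b' : ℕ} (h1 : FirstTwo h a b)
    (h2 : FirstTwo h a' b') : a = a' ∧ b = b' := by
  obtain ⟨p1, p2, p3, p4⟩ := h1
  obtain ⟨q1, q2, q3, q4⟩ := h2
  rcases lt_trichotomy b b' with h | h | h
  · have e1 := q4 b h p3
    have e2 := q4 a (p1.trans h) p2
    omega
  · subst h
    exact ⟨(p4 a' q1 q2).symm, rfl⟩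
  · have e1 := p4 b' h q3
    have e2 := p4 a' (q1.trans h) q2
    omega

/-- The elements below `N` of the set coded in the second component. -/
lemma flips_getElem {r : ℕ → Bool} {N k a b : ℕ} (hk : 2 * N ≤ k)
    (h0 : (flips N (pre r k))[0]? = some a) (h1 : (flips N (pre r k))[1]? = some b) :
    b < N ∧ FirstTwo (right r) a b := by
  set l := flips N (pre r k) with hl
  have hpw : l.Pairwise (· < ·) := by
    rw [hl]; unfold flips
    exact List.Pairwise.filter _ List.pairwise_lt_range
  obtain ⟨l0, e0⟩ := List.getElem?_eq_some_iff.1 h0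
  obtain ⟨l1, e1⟩ := List.getElem?_eq_some_iff.1 h1
  have ha : a ∈ l := by rw [← e0]; exact List.getElem_mem _
  have hb : b ∈ l := by rw [← e1]; exact List.getElem_mem _
  have ha' := (mem_flips_pre r hk).1 ha
  have hb' := (mem_flips_pre r hk).1 hb
  have hab : a < b := by
    rw [← e0, ← e1]
    exact List.pairwise_iff_getElem.1 hpw 0 1 l0 l1 Nat.zero_lt_one
  refine ⟨hb'.1, hab, ha'.2, hb'.2, fun i hi hit => ?_⟩
  have him : i ∈ l := (mem_flips_pre r hk).2 ⟨hi.trans hb'.1, hit⟩
  obtain ⟨n, hn, hni⟩ := List.getElem_of_mem him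
  rcases Nat.lt_or_ge n 1 with hn1 | hn1
  · obtain rfl : n = 0 := by omega
    rw [← hni, e0]
  · exfalso
    rcases Nat.eq_or_lt_of_le hn1 with h | h
    · subst h
      rw [e1] at hni
      omega
    · have := List.pairwise_iff_getElem.1 hpw 1 n l1 hn h
      rw [e1, hni] at this
      omega

lemma flips_firstTwo {r : ℕ → Bool} {N k a b : ℕ} (hk : 2 * N ≤ k) (hbN : b < N)
    (h : FirstTwo (right r) a b) :
    (flips N (pre r k))[0]? = some a ∧ (flips N (pre r k))[1]? = some b := by
  set l := flips N (pre r k) with hl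
  have ha : a ∈ l := (mem_flips_pre r hk).2 ⟨h.1.trans hbN, h.2.1⟩
  have hb : b ∈ l := (mem_flips_pre r hk).2 ⟨hbN, h.2.2.1⟩
  have hlen : 2 ≤ l.length := by
    by_contra hcon
    have hle : l.length ≤ 1 := by omega
    obtain ⟨n, hn, hni⟩ := List.getElem_of_mem ha
    obtain ⟨m, hm, hmi⟩ := List.getElem_of_mem hb
    have hn0 : n = 0 := by omega
    have hm0 : m = 0 := by omega
    subst hn0 hm0
    have := h.1
    omega
  have h0 : l[0]? = some (l[0]'(by omega)) := List.getElem?_eq_getElem (by omega)
  have h1 : l[1]? = some (l[1]'(by omega)) := List.getElem?_eq_getElem (by omega)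
  obtain ⟨_, h2⟩ := flips_getElem hk h0 h1
  obtain ⟨e1, e2⟩ := h.unique h2
  rw [h0, h1, ← e1, ← e2]
  exact ⟨rfl, rfl⟩

/-- The answer computed from an initial segment of the pair (instance, homogeneous set). -/
noncomputable def ansWord (τ : List Bool) : Option Bool :=
  ((flips (τ.length / 2) τ)[0]?).bind fun a => ((flips (τ.length / 2) τ)[1]?).bind fun b =>
    bif decide (4 * b ≤ τ.length) then some (answ (evens (2 * b) τ) a b) else none

lemma primrec_ansWord : Primrec ansWord := by
  have hhalf : Primrec (fun τ : List Bool => τ.length / 2) :=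
    Primrec.nat_div.comp Primrec.list_length (Primrec.const 2)
  have hfl : Primrec (fun τ : List Bool => flips (τ.length / 2) τ) :=
    primrec_flips.comp hhalf Primrec.id
  refine Primrec.option_bind (Primrec.list_getElem?.comp hfl (Primrec.const 0)) ?_
  have h1 : Primrec (fun q : List Bool × ℕ => (flips (q.1.length / 2) q.1)[1]?) :=
    Primrec.list_getElem?.comp (hfl.comp Primrec.fst) (Primrec.const 1)
  refine Primrec.option_bind h1 ?_
  have h2 : Primrec (fun q : (List Bool × ℕ) × ℕ => decide (4 * q.2 ≤ q.1.1.length)) :=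
    (PrimrecRel.comp Primrec.nat_le (Primrec.nat_mul.comp (Primrec.const 4) Primrec.snd)
      (Primrec.list_length.comp (Primrec.fst.comp Primrec.fst))).decide
  have h3 : Primrec (fun q : (List Bool × ℕ) × ℕ =>
      some (answ (evens (2 * q.2) q.1.1) q.1.2 q.2)) := by
    refine Primrec.option_some.comp (primrec_answ.comp (Primrec.pair ?_
      (Primrec.pair (Primrec.snd.comp Primrec.fst) Primrec.snd)))
    exact primrec_evens.comp (Primrec.nat_double.comp Primrec.snd)
      (Primrec.fst.comp Primrec.fst)
  exact Primrec.cond h2 h3 (Primrec.const none)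

/-- The backward word function. -/
noncomputable def wordH (τ : List Bool) (m : ℕ) : Option Bool :=
  bif decide (m % 2 = 0) then τ[m + 1]? else ansWord τ

lemma primrec_wordH : Primrec₂ wordH := by
  have h1 : Primrec (fun q : List Bool × ℕ => decide (q.2 % 2 = 0)) :=
    (PrimrecRel.comp Primrec.eq (Primrec.nat_mod.comp Primrec.snd (Primrec.const 2))
      (Primrec.const 0)).decide
  exact Primrec.cond h1 (Primrec.list_getElem?.comp Primrec.fst (Primrec.succ.comp Primrec.snd))
    (primrec_ansWord.comp Primrec.fst)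

/-- The backward map, defined when the set has at least two elements. -/
noncomputable def mapH : (ℕ → Bool) →. (ℕ → Bool) := fun s =>
  ⟨∃ ab : ℕ × ℕ, FirstTwo (right s) ab.1 ab.2, fun hd =>
    join (right s) (fun _ => answ (pre (left s) (2 * hd.choose.2)) hd.choose.1 hd.choose.2)⟩

lemma mem_mapH {s q : ℕ → Bool} : q ∈ mapH s ↔ ∃ a b, FirstTwo (right s) a b ∧
    q = join (right s) (fun _ => answ (pre (left s) (2 * b)) a b) := by
  constructor
  · rintro ⟨hd, rfl⟩
    have hd' : ∃ ab : ℕ × ℕ, FirstTwo (right s) ab.1 ab.2 := hd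
    exact ⟨hd'.choose.1, hd'.choose.2, hd'.choose_spec, rfl⟩
  · rintro ⟨a, b, hab, rfl⟩
    have hd : ∃ ab : ℕ × ℕ, FirstTwo (right s) ab.1 ab.2 := ⟨(a, b), hab⟩
    refine ⟨hd, ?_⟩
    obtain ⟨e1, e2⟩ := hab.unique hd.choose_spec
    change join (right s) (fun _ => answ (pre (left s) (2 * hd.choose.2)) hd.choose.1
      hd.choose.2) = _
    rw [← e1, ← e2]

lemma computes_mapH {s q : ℕ → Bool} (hq : q ∈ mapH s) : Computes wordH s q := by
  obtain ⟨a, b, hab, rfl⟩ := mem_mapH.1 hq
  intro m
  by_cases hm : m % 2 = 0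
  · have hval : join (right s) (fun _ => answ (pre (left s) (2 * b)) a b) m = s (m + 1) := by
      have : 2 * (m / 2) + 1 = m + 1 := by omega
      simp only [join, hm, if_true, right, this]
    rw [hval]
    constructor
    · refine ⟨m + 2, ?_⟩
      simp only [wordH, hm, decide_true, cond_true]
      exact pre_getElem? s (by omega)
    · intro k v hv
      simp only [wordH, hm, decide_true, cond_true] at hv
      exact pre_getElem?_some hv
  · have hval : join (right s) (fun _ => answ (pre (left s) (2 * b)) a b) m =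
        answ (pre (left s) (2 * b)) a b := by
      simp only [join, hm, if_false]
    rw [hval]
    have hw : ∀ τ, wordH τ m = ansWord τ := by
      intro τ; simp [wordH, hm]
    simp only [hw]
    constructor
    · refine ⟨4 * b + 4, ?_⟩
      have hk : 2 * ((4 * b + 4) / 2) ≤ 4 * b + 4 := by omega
      obtain ⟨h0, h1⟩ := flips_firstTwo hk (by omega) hab
      unfold ansWord
      rw [pre_length, h0, h1]
      simp only [Option.bind_some]
      rw [evens_pre s (by omega)]
      simp
    · intro k v hv
      unfold ansWord at hv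
      rw [pre_length] at hv
      rcases h0 : (flips (k / 2) (pre s k))[0]? with _ | a'
      · rw [h0] at hv; simp at hv
      rcases h1 : (flips (k / 2) (pre s k))[1]? with _ | b'
      · rw [h0, h1] at hv; simp at hv
      obtain ⟨_, h2⟩ := flips_getElem (by omega) h0 h1
      obtain ⟨e1, e2⟩ := hab.unique h2
      subst e1 e2
      rw [h0, h1] at hv
      simp only [Option.bind_some] at hv
      by_cases hle : 4 * b ≤ k
      · simp only [hle, decide_true, cond_true, Option.some.injEq] at hv
        rw [← hv, evens_pre s (by omega)]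
      · simp [hle] at hv

/-! ### Correctness -/

lemma exists_firstTwo {h : ℕ → Bool} (hinf : {n | h n = true}.Infinite) :
    ∃ a b, FirstTwo h a b := by
  classical
  have h1 : ∃ a, h a = true := hinf.nonempty
  have h2 : ∃ b, Nat.find h1 < b ∧ h b = true := by
    obtain ⟨b, hb, hlt⟩ := hinf.exists_gt (Nat.find h1)
    exact ⟨b, hlt, hb⟩
  refine ⟨Nat.find h1, Nat.find h2, (Nat.find_spec h2).1, Nat.find_spec h1,
    (Nat.find_spec h2).2, fun i hi hit => ?_⟩
  have h3 := Nat.find_min h2 hi
  have h4 := Nat.find_min' h1 hit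
  have h5 : ¬ Nat.find h1 < i := fun h => h3 ⟨h, hit⟩
  omega

lemma flips_head {r : ℕ → Bool} {y k : ℕ} (hk : 2 * y ≤ k)
    (hr : ∀ m n, right r m = true → right r n = true → m = n) :
    (∀ j, j < y → right r j = true → (flips y (pre r k))[0]? = some j) ∧
      ((∀ j, j < y → right r j = false) → (flips y (pre r k))[0]? = none) := by
  constructor
  · intro j hj hjt
    have hmem := (mem_flips_pre r hk).2 ⟨hj, hjt⟩
    have hpos : 0 < (flips y (pre r k)).length := List.length_pos_of_mem hmem
    rw [List.getElem?_eq_getElem hpos]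
    have h1 := (mem_flips_pre r hk).1 (List.getElem_mem hpos)
    exact congrArg some (hr _ _ h1.2 hjt)
  · intro hall
    rw [List.getElem?_eq_none]
    by_contra hcon
    have hpos : 0 < (flips y (pre r k)).length := by omega
    have h1 := (mem_flips_pre r hk).1 (List.getElem_mem hpos)
    rw [hall _ h1.1] at h1
    exact Bool.false_ne_true h1.2

lemma mapK_pair (r : ℕ → Bool) (x y : ℕ) : mapK r (Nat.pair x y) = col (pre r (2 * y)) x y := by
  simp [mapK]

lemma colour_crossing {r : ℕ → Bool} (hr : ∀ m n, right r m = true → right r n = true → m = n)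
    {j x y : ℕ} (hj : right r j = true) (hx : x ≤ j) (hy : j < y) :
    mapK r (Nat.pair x y) = decide (j % 2 = 0) := by
  rw [mapK_pair]
  unfold col
  rw [(flips_head (k := 2 * y) le_rfl hr).1 j hy hj]
  simp [hx]

lemma colour_after {r : ℕ → Bool} (hr : ∀ m n, right r m = true → right r n = true → m = n)
    {j x y : ℕ} (hj : right r j = true) (hx : j < x) (hy : j < y) :
    mapK r (Nat.pair x y) = base (pre (left r) y) x := by
  rw [mapK_pair]
  unfold col
  rw [(flips_head (k := 2 * y) le_rfl hr).1 j hy hj, evens_pre r (by omega)]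
  simp [not_le.2 hx]

lemma colour_none {r : ℕ → Bool} (hr : ∀ m n, right r m = true → right r n = true → m = n)
    {x y : ℕ} (hno : ∀ j, j < y → right r j = false) :
    mapK r (Nat.pair x y) = base (pre (left r) y) x := by
  rw [mapK_pair]
  unfold col
  rw [(flips_head (k := 2 * y) le_rfl hr).2 hno, evens_pre r (by omega)]
  rfl

/-- A solution of the colouring is not computable from the first component. -/
lemma non_part {r h : ℕ → Bool} (hr : ∀ m n, right r m = true → right r n = true → m = n)
    (hinf : {n | h n = true}.Infinite) {a : Bool}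
    (hhom : ∀ x y, x < y → h x = true → h y = true → mapK r (Nat.pair x y) = a) :
    ¬ ComputableFrom (left r) h := by
  intro hcomp
  by_cases hex : ∃ j, right r j = true
  · obtain ⟨j, hj⟩ := hex
    refine no_homogeneous (computableFrom_tail j hcomp) (a := a) ?_ ?_
    · refine Set.infinite_of_not_bddAbove ?_
      rintro ⟨B, hB⟩
      obtain ⟨n, hn, hlt⟩ := hinf.exists_gt (max j B)
      have h1 : j < n := lt_of_le_of_lt (le_max_left _ _) hlt
      have h2 : B < n := lt_of_le_of_lt (le_max_right _ _) hlt
      have h3 : n ≤ B := hB (by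
        change (decide (j < n) && h n) = true
        have hn' : h n = true := hn
        simp [h1, hn'])
      omega
    · intro x y hxy hx hy
      simp only [Bool.and_eq_true, decide_eq_true_eq] at hx hy
      rw [← colour_after hr hj hx.1 hy.1]
      exact hhom x y hxy hx.2 hy.2
  · push Not at hex
    have hno : ∀ j, right r j = false := fun j => by simpa using hex j
    refine no_homogeneous hcomp hinf (a := a) fun x y hxy hx hy => ?_
    rw [← colour_none hr (x := x) (y := y) fun j _ => hno j]
    exact hhom x y hxy hx hy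

/-- The answer computed from a solution is correct. -/
lemma llpo_part {r h : ℕ → Bool} (hr : ∀ m n, right r m = true → right r n = true → m = n)
    (hinf : {n | h n = true}.Infinite) {c : Bool}
    (hhom : ∀ x y, x < y → h x = true → h y = true → mapK r (Nat.pair x y) = c)
    {a b : ℕ} (hab : FirstTwo h a b) (n : ℕ) :
    right r (2 * n + (answ (pre r (2 * b)) a b).toNat) = false := by
  by_contra hcon
  have hj : right r (2 * n + (answ (pre r (2 * b)) a b).toNat) = true := by simpa using hcon
  set j := 2 * n + (answ (pre r (2 * b)) a b).toNat with hjdef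
  have hans : answ (pre r (2 * b)) a b = decide (j % 2 = 0) := by
    by_cases hjb : j < b
    · unfold answ
      rw [(flips_head (k := 2 * b) le_rfl hr).1 j hjb hj]
      rfl
    · have hno : ∀ i, i < b → right r i = false := by
        intro i hi
        by_contra hi'
        have hi'' : right r i = true := by simpa using hi'
        have := hr i j hi'' hj
        omega
      unfold answ
      rw [(flips_head (k := 2 * b) le_rfl hr).2 hno]
      change col (pre r (2 * b)) a b = _
      rw [← mapK_pair, hhom a b hab.1 hab.2.1 hab.2.2.1]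
      obtain ⟨y, hy, hlt⟩ := hinf.exists_gt (max j a)
      have h1 : j < y := lt_of_le_of_lt (le_max_left _ _) hlt
      have h2 : a < y := lt_of_le_of_lt (le_max_right _ _) hlt
      rw [← hhom a y h2 hab.2.1 hy]
      exact colour_crossing hr hj (by have := hab.1; omega) h1
  rcases hb : answ (pre r (2 * b)) a b with _ | _
  · rw [hb] at hjdef hans
    simp only [Bool.toNat_false] at hjdef
    have : j % 2 = 0 := by omega
    simp [this] at hans
  · rw [hb] at hjdef hans
    simp only [Bool.toNat_true] at hjdef
    have : ¬ (j % 2 = 0) := by omega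
    simp [this] at hans

/-- `NON × LLPO` is Weihrauch reducible to Ramsey's theorem for pairs and two colours. -/
theorem result : WeihrauchReducible (prod NON LLPO) RT22 := by
  refine ⟨mapH, fun r => Part.some (mapK r), ⟨wordH, primrec_wordH.to_comp, fun s q hq =>
    computes_mapH hq⟩, ⟨wordK, primrec_wordK.to_comp, fun r c hc => ?_⟩, ?_⟩
  · rw [Part.mem_some_iff.1 hc]
    exact computes_mapK r
  · intro G hG r hr
    obtain ⟨_, hr2⟩ := hr
    have hr' : ∀ m n, right r m = true → right r n = true → m = n := hr2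
    obtain ⟨h, hhG, hinf, c, hhom⟩ := hG (mapK r) (Set.mem_univ _)
    obtain ⟨a, b, hab⟩ := exists_firstTwo hinf
    refine ⟨join h (fun _ => answ (pre r (2 * b)) a b), ?_, ?_⟩
    · refine Part.mem_bind (Part.mem_some _) (Part.mem_bind hhG ?_)
      refine mem_mapH.2 ⟨a, b, ?_, ?_⟩
      · rw [right_join]; exact hab
      · rw [right_join, left_join]
    · refine ⟨?_, ?_⟩
      · rw [left_join]
        exact fun ht => non_part hr' hinf hhom (computableFrom_of_turing ht)
      · rw [right_join]
        exact ⟨_, rfl, fun n => llpo_part hr' hinf hhom hab n⟩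

end Pool.Agent.Results.MP_743c94_lc.Full
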